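import Pool.Agent.W421.HP.Top

set_option autoImplicit false

/-!
# Every proper edge colouring of `K_10` has a rainbow Hamiltonian path
-/

namespace Pool.Agent.W421.HP

theorem initL_K : ∀ j, (initL j).K = j
  | 0 => rfl
  | j + 1 => by
    show (upd (initL j).T (initL j).M (initL j).K j (j + 1) (j + 1)).K = j + 1
    rw [upd_K, initL_K j]
    exact max_eq_right (by omega)

theorem initL_real {c : ℕ → ℕ → ℕ} (hc : PC c) {φ : ℕ → ℕ} {P : ℕ} (hP : P ≤ 9)
    (h : ∀ x, 1 ≤ x → x < P → c (x - 1) x = φ x)
    (hinj : ∀ x y, 1 ≤ x → x ≤ P → 1 ≤ y → y ≤ P → φ x = φ y → x = y) :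
    ∀ j, j < P → RealW c φ (initL j) := by
  intro j
  induction j with
  | zero =>
    intro _
    refine ⟨?_, ?_, ?_⟩
    · intro x y h1 h2
      have h3 : x ≤ 0 := h2
      omega
    · intro u v _ _ _ h1
      exfalso
      apply h1
      show Nat.mod (Nat.shiftRight 0 (Nat.mul 4 (u + 16 * v))) 16 = 0
      show (0 >>> (4 * (u + 16 * v))) % 16 = 0
      simp
    · intro u x _ _ h1
      exfalso
      have h2 : (0 : ℕ).testBit (16 * u + x) = true := h1
      simp at h2
  | succ j ih =>
    intro hj
    have hR := ih (by omega)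
    have hd : dig (initL j).T (j + 16 * (j + 1)) = 0 ∧ dig (initL j).T ((j + 1) + 16 * j) = 0 := by
      have h1 : j < 9 := by omega
      clear * - h1
      interval_cases j <;> decide +kernel
    refine RealW.upd hc hR (by omega) (by omega) (by omega) (by omega) (by omega) hd.1 hd.2 ?_ ?_
    · have := h (j + 1) (by omega) (by omega)
      simpa using this
    · intro y z h1 h2 h3 h4 h5
      rw [initL_K] at h2 h4
      rw [max_eq_right (by omega)] at h2 h4
      exact hinj y z h1 (by omega) h3 (by omega) h5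

theorem init_real {c : ℕ → ℕ → ℕ} (hc : PC c) {φ : ℕ → ℕ} {P i : ℕ} (hP : P ≤ 9) (hi : i < P)
    (h : ∀ x, 1 ≤ x → x < P → c (x - 1) x = φ x) (h' : c P i = φ P)
    (hinj : ∀ x y, 1 ≤ x → x ≤ P → 1 ≤ y → y ≤ P → φ x = φ y → x = y) :
    RealW c φ (init P i) := by
  have hR := initL_real hc hP h hinj (P - 1) (by omega)
  have hd : dig (initL (P - 1)).T (P + 16 * i) = 0 ∧ dig (initL (P - 1)).T (i + 16 * P) = 0 := by
    clear * - hP hi
    interval_cases P <;> interval_cases i <;> decide +kernel
  refine RealW.upd hc hR (by omega) (by omega) (by omega) (by omega) (by omega) hd.1 hd.2 h' ?_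
  intro y z h1 h2 h3 h4 h5
  rw [initL_K] at h2 h4
  rw [max_eq_right (by omega)] at h2 h4
  exact hinj y z h1 h2 h3 h4 h5

theorem cert {c : ℕ → ℕ → ℕ} (hc : PC c) {P i : ℕ} (hP : 3 ≤ P) (hP' : P ≤ 9) (hi : 1 ≤ i)
    (hi' : 2 * i + 1 ≤ P) (hno : ∀ l : List ℕ, l.length = P + 1 → ¬ RB c l) :
    ¬ Real c (init P i) := by
  have key : ∀ (L2 f : ℕ) (Cs : List ℕ) (s : St) (res : List St), L2 + 2 = P + 1 →
      run BASE L2 f 0 Cs [s] [] = some res → (∀ s ∈ res, ¬ Real c s) → ¬ Real c s :=
    fun L2 f Cs s res hL hr hres =>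
      (run_sound hc (by rw [hL]; exact hno) f 0 Cs [s] [] res hr hres).1 s (by simp)
  have nil : ∀ s ∈ ([] : List St), ¬ Real c s := by simp
  have hi'' : i ≤ 4 := by omega
  interval_cases P
  · obtain rfl : i = 1 := by omega
    exact key _ _ _ _ _ rfl q3_1 nil
  · obtain rfl : i = 1 := by omega
    exact key _ _ _ _ _ rfl q4_1 nil
  · interval_cases i
    · exact key _ _ _ _ _ rfl q5_1 nil
    · exact key _ _ _ _ _ rfl q5_2 nil
    · omega
    · omega
  · interval_cases i
    · exact key _ _ _ _ _ rfl q6_1 nil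
    · exact key _ _ _ _ _ rfl q6_2 nil
    · omega
    · omega
  · interval_cases i
    · exact key _ _ _ _ _ rfl q7_1 nil
    · exact key _ _ _ _ _ rfl q7_2 nil
    · exact key _ _ _ _ _ rfl q7_3 nil
    · omega
  · interval_cases i
    · exact key _ _ _ _ _ rfl q8_1 nil
    · exact key _ _ _ _ _ rfl q8_2 nil
    · exact key _ _ _ _ _ rfl q8_3 nil
    · omega
  · interval_cases i
    · exact key _ _ _ _ _ rfl t1 (u1 hc hno)
    · exact key _ _ _ _ _ rfl t2 (u2 hc hno)
    · exact key _ _ _ _ _ rfl t3 (u3 hc hno)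
    · exact key _ _ _ _ _ rfl t4 (u4 hc hno)

/-! ### Lists -/

theorem cols_length (c : ℕ → ℕ → ℕ) : ∀ l : List ℕ, (cols c l).length = l.length - 1
  | [] => rfl
  | [_] => rfl
  | a :: b :: l => by
    show (cols c (b :: l)).length + 1 = _
    rw [cols_length c (b :: l)]
    simp

theorem cols_getD (c : ℕ → ℕ → ℕ) : ∀ (l : List ℕ) (k : ℕ), k + 1 < l.length →
    (cols c l).getD k 0 = c (l.getD k 0) (l.getD (k + 1) 0)
  | [], k, h => by simp at h
  | [_], k, h => by simp at h
  | a :: b :: l, 0, _ => by simp [cols]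
  | a :: b :: l, k + 1, h => by
    have h1 : k + 1 < (b :: l).length := by simpa using h
    have := cols_getD c (b :: l) k h1
    simpa [cols] using this

theorem getD_inj {l : List ℕ} (hl : l.Nodup) {i j : ℕ} (hi : i < l.length) (hj : j < l.length)
    (h : l.getD i 0 = l.getD j 0) : i = j := by
  rw [List.getD_eq_getElem _ _ hi, List.getD_eq_getElem _ _ hj] at h
  exact (List.Nodup.getElem_inj_iff hl).1 h

theorem getD_mem {l : List ℕ} {i : ℕ} (hi : i < l.length) : l.getD i 0 ∈ l := by
  rw [List.getD_eq_getElem _ _ hi]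
  exact List.getElem_mem hi

theorem cols_map (c : ℕ → ℕ → ℕ) (σ : ℕ → ℕ) : ∀ l : List ℕ,
    cols (fun u v => c (σ u) (σ v)) l = cols c (l.map σ)
  | [] => rfl
  | [_] => rfl
  | a :: b :: l => by
    have := cols_map c σ (b :: l)
    simp only [cols, List.map_cons] at this ⊢
    rw [this]

theorem cols_reverse {c : ℕ → ℕ → ℕ} (hc : PC c) (l : List ℕ) (h : ∀ v ∈ l, v < 10) :
    (cols c l.reverse).Perm (cols c l) := by
  rcases l with _ | ⟨a, l⟩
  · simp
  · have := cols_rev_append hc l a [] h
    simpa [cols] using this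

theorem RB_reverse {c : ℕ → ℕ → ℕ} (hc : PC c) {l : List ℕ} (h : RB c l) : RB c l.reverse :=
  ⟨List.nodup_reverse.2 h.1, fun v hv => h.2.1 v (List.mem_reverse.1 hv),
    (cols_reverse hc l h.2.1).nodup_iff.2 h.2.2⟩

/-- The main step. -/
theorem main_step {c : ℕ → ℕ → ℕ} (hc : PC c) {l : List ℕ} (hl : RB c l) (hP : 3 ≤ l.length)
    (hP' : l.length ≤ 9) {w i : ℕ} (hw : w < 10) (hwl : w ∉ l) (hi : 2 * i + 1 ≤ l.length)
    (hcol : c w (l.getD i 0) ∉ cols c l) : ∃ l' : List ℕ, l'.length = l.length + 1 ∧ RB c l' := by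
  by_contra hcon
  have hno : ∀ l' : List ℕ, l'.length = l.length + 1 → ¬ RB c l' :=
    fun l' h1 h2 => hcon ⟨l', h1, h2⟩
  rcases Nat.eq_zero_or_pos i with rfl | hi1
  · refine hno (w :: l) rfl ⟨List.nodup_cons.2 ⟨hwl, hl.1⟩, ?_, ?_⟩
    · intro v hv
      rcases List.mem_cons.1 hv with rfl | hv
      · exact hw
      · exact hl.2.1 v hv
    · rcases l with _ | ⟨a, l⟩
      · simp at hP
      · show (c w a :: cols c (a :: l)).Nodup
        exact List.nodup_cons.2 ⟨by simpa using hcol, hl.2.2⟩
  · -- the relabelling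
    set P := l.length with hPdef
    set l1 := l ++ [w] with hl1
    have n1 : l1.Nodup := by
      rw [hl1, List.nodup_append]
      refine ⟨hl.1, by simp, ?_⟩
      intro u hu v hv
      rw [List.mem_singleton] at hv
      rintro rfl
      exact hwl (hv ▸ hu)
    have b1 : ∀ v ∈ l1, v < 10 := by
      intro v hv
      rw [hl1, List.mem_append, List.mem_singleton] at hv
      rcases hv with hv | rfl
      · exact hl.2.1 v hv
      · exact hw
    set rest := (List.range 10).filter (fun v => v ∉ l1) with hrest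
    set full := l1 ++ rest with hfull
    have nf : full.Nodup := by
      rw [hfull, List.nodup_append]
      refine ⟨n1, List.nodup_range.filter _, ?_⟩
      intro u hu v hv
      rintro rfl
      rw [hrest, List.mem_filter] at hv
      simp at hv
      exact hv.2 hu
    have bf : ∀ v ∈ full, v < 10 := by
      intro v hv
      rw [hfull, List.mem_append] at hv
      rcases hv with hv | hv
      · exact b1 v hv
      · rw [hrest, List.mem_filter, List.mem_range] at hv
        exact hv.1
    have hfm : ∀ v, v < 10 → v ∈ full := by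
      intro v hv
      rw [hfull, List.mem_append]
      by_cases h1 : v ∈ l1
      · exact Or.inl h1
      · right
        rw [hrest, List.mem_filter, List.mem_range]
        exact ⟨hv, by simpa using h1⟩
    have hlen : full.length = 10 := by
      have h1 : full.Perm (List.range 10) := by
        rw [List.perm_ext_iff_of_nodup nf List.nodup_range]
        intro v
        rw [List.mem_range]
        exact ⟨bf v, hfm v⟩
      rw [h1.length_eq]
      simp
    set σ : ℕ → ℕ := fun j => full.getD j 0 with hσ
    have σlt : ∀ j, j < 10 → σ j < 10 := fun j hj => bf _ (getD_mem (by omega))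
    have σinj : ∀ j k, j < 10 → k < 10 → σ j = σ k → j = k := fun j k hj hk h =>
      getD_inj nf (by omega) (by omega) h
    have σl : ∀ j, j < P → σ j = l.getD j 0 := by
      intro j hj
      show full.getD j 0 = _
      rw [hfull, hl1, List.append_assoc, List.getD_append _ _ _ _ hj]
    have σP : σ P = w := by
      show full.getD P 0 = w
      rw [hfull, hl1, List.append_assoc, List.getD_append_right _ _ _ _ (le_of_eq hPdef.symm)]
      simp [hPdef]
    set c' : ℕ → ℕ → ℕ := fun u v => c (σ u) (σ v) with hc'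
    have hPC : PC c' := by
      refine ⟨fun u v hu hv => hc.symm _ _ (σlt u hu) (σlt v hv), ?_⟩
      intro u v x hu hv hx h1 h2 h3
      exact hc.prop _ _ _ (σlt u hu) (σlt v hv) (σlt x hx)
        (fun h => h1 (σinj _ _ hu hv h)) (fun h => h2 (σinj _ _ hu hx h))
        (fun h => h3 (σinj _ _ hv hx h))
    have hno' : ∀ m : List ℕ, m.length = P + 1 → ¬ RB c' m := by
      intro m hm hR
      refine hno (m.map σ) (by simpa using hm) ⟨?_, ?_, ?_⟩
      · exact List.Nodup.map_on (fun x hx y hy h => σinj x y (hR.2.1 x hx) (hR.2.1 y hy) h) hR.1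
      · intro v hv
        obtain ⟨u, hu, rfl⟩ := List.mem_map.1 hv
        exact σlt u (hR.2.1 u hu)
      · rw [← cols_map]
        exact hR.2.2
    have hci : ∀ x, 1 ≤ x → x < P → c' (x - 1) x = (cols c l).getD (x - 1) 0 := by
      intro x h1 h2
      show c (σ (x - 1)) (σ x) = _
      rw [cols_getD c l (x - 1) (by omega), σl _ (by omega), σl _ h2]
      have : x - 1 + 1 = x := by omega
      rw [this]
    set φ : ℕ → ℕ := fun x => if x = P then c' P i else c' (x - 1) x with hφ
    have hφP : φ P = c' P i := by simp [hφ]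
    have hφx : ∀ x, x < P → φ x = c' (x - 1) x := by
      intro x hx
      simp only [hφ]
      rw [if_neg (by omega)]
    have hcl := cols_length c l
    have hPi : c' P i = c w (l.getD i 0) := by
      show c (σ P) (σ i) = _
      rw [σP, σl i (by omega)]
    refine cert hPC hP hP' hi1 hi hno' ⟨φ, init_real hPC hP' (by omega) ?_ hφP.symm ?_⟩
    · intro x h1 h2
      exact (hφx x h2).symm
    · intro x y h1 h2 h3 h4 h5
      rcases Nat.lt_or_ge x P with h6 | h6
      · rcases Nat.lt_or_ge y P with h7 | h7
        · rw [hφx x h6, hφx y h7, hci x h1 h6, hci y h3 h7] at h5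
          have := getD_inj hl.2.2 (by omega) (by omega) h5
          omega
        · obtain rfl : y = P := by omega
          rw [hφx x h6, hφP, hci x h1 h6, hPi] at h5
          exact absurd (h5 ▸ getD_mem (by omega)) hcol
      · obtain rfl : x = P := by omega
        rcases Nat.lt_or_ge y P with h7 | h7
        · rw [hφx y h7, hφP, hci y h3 h7, hPi] at h5
          exact absurd (h5 ▸ getD_mem (by omega)) hcol
        · omega

theorem next {c : ℕ → ℕ → ℕ} (hc : PC c) {P : ℕ} (hP : 3 ≤ P) (hP' : P ≤ 9)
    (h : ∃ l : List ℕ, l.length = P ∧ RB c l) : ∃ l : List ℕ, l.length = P + 1 ∧ RB c l := by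
  obtain ⟨l, rfl, hl⟩ := h
  -- a vertex outside
  obtain ⟨w, hw, hwl⟩ : ∃ w, w < 10 ∧ w ∉ l := by
    by_contra hcon
    push Not at hcon
    have h1 : List.range 10 ⊆ l := fun v hv => hcon v (List.mem_range.1 hv)
    have h2 := (List.nodup_range.subperm h1).length_le
    simp at h2
    omega
  obtain ⟨v, hv, hcol⟩ : ∃ v ∈ l, c w v ∉ cols c l := by
    by_contra hcon
    push Not at hcon
    have h1 : l.map (c w) ⊆ cols c l := by
      intro x hx
      obtain ⟨v, hv, rfl⟩ := List.mem_map.1 hx
      exact hcon v hv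
    have h2 : (l.map (c w)).Nodup := by
      refine List.Nodup.map_on ?_ hl.1
      intro x hx y hy hxy
      by_contra hne
      exact hc.prop w x y hw (hl.2.1 x hx) (hl.2.1 y hy) (fun h => hwl (h ▸ hx))
        (fun h => hwl (h ▸ hy)) hne hxy
    have h3 := (h2.subperm h1).length_le
    rw [cols_length] at h3
    simp at h3
    omega
  obtain ⟨i, hi, rfl⟩ := List.getElem_of_mem hv
  by_cases h2 : 2 * i + 1 ≤ l.length
  · exact main_step hc hl hP hP' hw hwl h2 (by rwa [List.getD_eq_getElem _ _ hi])
  · have hr := RB_reverse hc hl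
    have h3 := main_step hc (l := l.reverse) hr (by simpa using hP) (by simpa using hP') hw
      (by simpa using hwl) (i := l.length - 1 - i) (by rw [List.length_reverse]; omega) (by
        rw [List.getD_eq_getElem _ _ (by rw [List.length_reverse]; omega)]
        rw [List.getElem_reverse]
        have e : l.length - 1 - (l.length - 1 - i) = i := by omega
        simp only [e]
        intro hm
        exact hcol ((cols_reverse hc l hl.2.1).mem_iff.1 hm))
    simpa using h3

/-- Every proper edge colouring of `K_10` has a rainbow Hamiltonian path. -/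
theorem main {c : ℕ → ℕ → ℕ} (hc : PC c) : ∃ l : List ℕ, l.length = 10 ∧ RB c l := by
  have h3 : ∃ l : List ℕ, l.length = 3 ∧ RB c l := by
    refine ⟨[0, 1, 2], rfl, by decide, by decide, ?_⟩
    show [c 0 1, c 1 2].Nodup
    have := hc.prop 1 0 2 (by norm_num) (by norm_num) (by norm_num) (by norm_num) (by norm_num)
      (by norm_num)
    rw [hc.symm 1 0 (by norm_num) (by norm_num)] at this
    simpa using this
  have h4 := next hc (by norm_num) (by norm_num) h3
  have h5 := next hc (by norm_num) (by norm_num) h4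
  have h6 := next hc (by norm_num) (by norm_num) h5
  have h7 := next hc (by norm_num) (by norm_num) h6
  have h8 := next hc (by norm_num) (by norm_num) h7
  have h9 := next hc (by norm_num) (by norm_num) h8
  exact next hc (by norm_num) (by norm_num) h9

end Pool.Agent.W421.HP
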