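import Mathlib


set_option autoImplicit false
set_option linter.unusedVariables false

/-!
# A certificate checker for rainbow paths in properly edge coloured complete graphs: the program

A certificate is a stream of hexadecimal digits describing a tree of cases. At every node of the
tree an uncoloured edge `a b` is chosen and some witnesses are given: paths through the edge `a b`
all other edges of which are coloured with pairwise different colours. If there is no rainbow path
of this length, the colour of `a b` is one of the colours of every witness.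
-/

namespace Pool.Agent.W421.HP

/-- A partial colouring: a table of colour codes (4 bits for every ordered pair `u + 16 v`, `0` for
uncoloured), the masks of the codes at each vertex (16 bits each) and the number of codes. -/
structure St where
  T : Nat
  M : Nat
  K : Nat
deriving DecidableEq

/-- Evaluate `n` before calling `f`. -/
def force {α : Type} (n : Nat) (f : Nat → α) : α :=
  Nat.rec (motive := fun _ => α) (f 0) (fun m _ => f (Nat.succ m)) n

/-- The two bits (vertex and colour code) of a step with index `i = u + 16 v`. -/
def tok (T i : Nat) : Nat :=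
  Nat.lor (Nat.pow 2 (Nat.add 16 (Nat.div i 16))) (Nat.pow 2 (Nat.mod (Nat.shiftRight T (Nat.mul 4 i)) 16))

/-- Follow the path with hexadecimal digits `q` for `k` steps and add the bits of its steps to `W`;
all ones if a bit is repeated. -/
def walk (T : Nat) (k : Nat) : Nat → Nat → Nat :=
  Nat.rec (motive := fun _ => Nat → Nat → Nat) (fun _ W => W)
    (fun _ ih q W =>
      Nat.rec (motive := fun _ => Nat)
        (ih (Nat.div q 16) (Nat.lor W (tok T (Nat.mod q 256)))) (fun _ _ => 4294967295)
        (Nat.land W (tok T (Nat.mod q 256)))) k

/-- The mask of the codes of the witness with `r` vertices on the side of `a`. -/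
def wit (T W0 L2 a b r p : Nat) : Nat :=
  cond (Nat.ble r L2)
    (walk T (Nat.sub L2 r) (Nat.add (Nat.mul 16 (Nat.shiftRight p (Nat.mul 4 r))) b)
      (walk T r (Nat.add (Nat.mul 16 p) a) W0)) 4294967295

/-- the mask allowed by `m` witnesses read from `C` -/
def wits (T W0 L2 a b : Nat) (m : Nat) : Nat → Nat → Nat :=
  Nat.rec (motive := fun _ => Nat → Nat → Nat)
    (fun _ A => A)
    (fun _ ih C A =>
      ih (Nat.shiftRight C (Nat.mul 4 (Nat.succ L2)))
        (Nat.land A (wit T W0 L2 a b (Nat.mod C 16) (Nat.mod (Nat.div C 16) (Nat.pow 16 L2))))) m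

/-- The mask of the next `r` digits of `C`. -/
def accs (r : Nat) : Nat → Nat → Nat :=
  Nat.rec (motive := fun _ => Nat → Nat → Nat) (fun _ A => A)
    (fun _ ih C A => ih (Nat.div C 16) (Nat.lor A (Nat.pow 2 (Nat.mod C 16)))) r

/-- Colour the edge `a b` with the code `x`. -/
def upd (T M K a b x : Nat) : St :=
  ⟨Nat.lor T (Nat.lor (Nat.shiftLeft x (Nat.mul 4 (Nat.add a (Nat.mul 16 b))))
          (Nat.shiftLeft x (Nat.mul 4 (Nat.add b (Nat.mul 16 a))))),
   Nat.lor M (Nat.lor (Nat.shiftLeft (Nat.pow 2 x) (Nat.mul 16 a))
          (Nat.shiftLeft (Nat.pow 2 x) (Nat.mul 16 b))),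
   cond (Nat.ble x K) K x⟩

/-- Push the children given by the next `r` digits of `C`. -/
def kids (T M K a b : Nat) (r : Nat) : Nat → List St → List St :=
  Nat.rec (motive := fun _ => Nat → List St → List St) (fun _ st => st)
    (fun _ ih C st => ih (Nat.div C 16) (upd T M K a b (Nat.mod C 16) :: st)) r

/-- The edge `a b` is uncoloured. -/
def okk (base T K a b : Nat) : Bool :=
  cond (Nat.beq (Nat.land base (Nat.pow 2 (Nat.add 16 a))) 0)
      (cond (Nat.beq (Nat.land (Nat.lor base (Nat.pow 2 (Nat.add 16 a))) (Nat.pow 2 (Nat.add 16 b))) 0)
        (cond (Nat.beq (Nat.mod (Nat.shiftRight T (Nat.mul 4 (Nat.add a (Nat.mul 16 b)))) 16) 0)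
          (cond (Nat.beq (Nat.mod (Nat.shiftRight T (Nat.mul 4 (Nat.add b (Nat.mul 16 a)))) 16) 0)
          (Nat.ble K 14) false) false) false) false

/-- The codes allowed by the witnesses. -/
def dom (base L2 T M K a b m C : Nat) : Nat :=
  wits T (Nat.lor (Nat.lor base (Nat.pow 2 (Nat.add 16 a))) (Nat.pow 2 (Nat.add 16 b))) L2 a b m C
    (Nat.sub (Nat.pow 2 (Nat.add K 2)) 2)

/-- The codes present at `a` or `b`. -/
def used (M a b : Nat) : Nat := Nat.lor (Nat.shiftRight M (Nat.mul 16 a)) (Nat.shiftRight M (Nat.mul 16 b))

/-- The children are all the codes of `A` outside `N`. -/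
def chk (A N acc : Nat) : Bool := Nat.beq acc (Nat.xor A (Nat.land A N))

/-- A node of the tree, after reading the witnesses. -/
def fin (ih : Nat → List Nat → List St → List St → Option (List St)) (base L2 T M K a b m C C1 r : Nat)
    (Cs : List Nat) (st out : List St) : Option (List St) :=
  cond (okk base T K a b)
    (cond (chk (dom base L2 T M K a b m C) (used M a b) (accs r C1 0))
      (ih (Nat.shiftRight C1 (Nat.mul 4 r)) Cs (kids T M K a b r C1 st) out) none) none

/-- A node of the tree: deferred if `m = 15`. -/
def step (ih : Nat → List Nat → List St → List St → Option (List St)) (base L2 C : Nat)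
    (Cs : List Nat) (a b m T M K : Nat)
    (st out : List St) : Option (List St) :=
  cond (Nat.beq m 15) (ih C Cs st (⟨T, M, K⟩ :: out))
    (force (Nat.shiftRight C (Nat.mul (Nat.mul 4 (Nat.succ L2)) m)) fun C1 =>
     fin ih base L2 T M K a b m C (Nat.div C1 16) (Nat.mod C1 16) Cs st out)

/-- Read the edge and the number of witnesses of a node. -/
def step0 (ih : Nat → List Nat → List St → List St → Option (List St)) (base L2 C : Nat)
    (Cs : List Nat) (s : St)
    (st out : List St) : Option (List St) :=
  force s.T fun T => force s.M fun M => force s.K fun K =>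
  force (Nat.mod C 16) fun a => force (Nat.mod (Nat.div C 16) 16) fun b =>
  force (Nat.mod (Nat.div C 256) 16) fun m => force (Nat.div C 4096) fun C =>
    step ih base L2 C Cs a b m T M K st out

/-- Run the certificate. -/
def run (base L2 : Nat) (fuel : Nat) : Nat → List Nat → List St → List St → Option (List St) :=
  Nat.rec (motive := fun _ => Nat → List Nat → List St → List St → Option (List St))
    (fun _ _ _ _ => none)
    (fun _ ih C Cs st out =>
      List.rec (motive := fun _ => Option (List St)) (some out)
        (fun s st' _ => Nat.rec (motive := fun _ => Option (List St))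
           (List.rec (motive := fun _ => Option (List St)) none (fun c Cs _ => ih c Cs st out) Cs)
           (fun c _ => step0 ih base L2 (Nat.succ c) Cs s st' out) C) st) fuel

end Pool.Agent.W421.HP
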