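import Pool.Agent.W421.HP.Core

set_option autoImplicit false

/-!
# A certificate checker for rainbow paths in properly edge coloured complete graphs: soundness
-/

namespace Pool.Agent.W421.HP

/-- The colours of the edges of a path. -/
def cols (c : ℕ → ℕ → ℕ) : List ℕ → List ℕ
  | [] => []
  | [_] => []
  | a :: b :: l => c a b :: cols c (b :: l)

/-- `l` is a rainbow path with vertices in `{0, …, 9}`. -/
def RB (c : ℕ → ℕ → ℕ) (l : List ℕ) : Prop :=
  l.Nodup ∧ (∀ v ∈ l, v < 10) ∧ (cols c l).Nodup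

/-- `c` is a proper edge colouring of the complete graph on `{0, …, 9}`. -/
structure PC (c : ℕ → ℕ → ℕ) : Prop where
  symm : ∀ u v, u < 10 → v < 10 → c u v = c v u
  prop : ∀ u v w, u < 10 → v < 10 → w < 10 → u ≠ v → u ≠ w → v ≠ w → c u v ≠ c u w

/-- The `j`-th hexadecimal digit. -/
def dig (T j : ℕ) : ℕ := Nat.mod (Nat.shiftRight T (Nat.mul 4 j)) 16

theorem dig_lt (T j : ℕ) : dig T j < 16 := Nat.mod_lt _ (by norm_num)

theorem testBit_dig (T j i : ℕ) : (dig T j).testBit i = (decide (i < 4) && T.testBit (4 * j + i)) := by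
  show ((T >>> (4 * j)) % 2 ^ 4).testBit i = _
  rw [Nat.testBit_mod_two_pow, Nat.testBit_shiftRight]

theorem force_eq {α : Type} (n : ℕ) (f : ℕ → α) : force n f = f n := by
  cases n <;> rfl

/-- The digits of `q` after the first one. -/
def dl (q : ℕ) : ℕ → List ℕ
  | 0 => []
  | k + 1 => (q / 16 % 16) :: dl (q / 16) k

theorem dl_length (k : ℕ) : ∀ q, (dl q k).length = k := by
  induction k with
  | zero => intro q; rfl
  | succ k ih => intro q; simp [dl, ih]

theorem dl_lt (k : ℕ) : ∀ q, ∀ v ∈ dl q k, v < 16 := by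
  induction k with
  | zero => intro q v hv; simp [dl] at hv
  | succ k ih =>
    intro q v hv
    simp only [dl, List.mem_cons] at hv
    rcases hv with rfl | hv
    · exact Nat.mod_lt _ (by norm_num)
    · exact ih _ v hv

/-- The codes of the edges of a path. -/
def codes (T : ℕ) : List ℕ → List ℕ
  | [] => []
  | [_] => []
  | u :: v :: l => dig T (u + 16 * v) :: codes T (v :: l)

theorem codes_lt (T : ℕ) : ∀ l : List ℕ, ∀ x ∈ codes T l, x < 16
  | [], x, hx => by simp [codes] at hx
  | [_], x, hx => by simp [codes] at hx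
  | u :: v :: l, x, hx => by
    simp only [codes, List.mem_cons] at hx
    rcases hx with rfl | hx
    · exact dig_lt _ _
    · exact codes_lt T (v :: l) x hx

/-- All ones. -/
def FF : ℕ := 4294967295

theorem testBit_FF (j : ℕ) : FF.testBit j = decide (j < 32) := by
  have h : FF = 2 ^ 32 - 1 := by norm_num [FF]
  rw [h, Nat.testBit_two_pow_sub_one]

theorem tok_testBit (T q j : ℕ) : (tok T (Nat.mod q 256)).testBit j = true ↔
    j = 16 + q / 16 % 16 ∨ j = dig T (q % 16 + 16 * (q / 16 % 16)) := by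
  have h1 : Nat.div (Nat.mod q 256) 16 = q / 16 % 16 := by
    show q % 256 / 16 = q / 16 % 16
    omega
  have h2 : Nat.mod q 256 = q % 16 + 16 * (q / 16 % 16) := by
    show q % 256 = q % 16 + 16 * (q / 16 % 16)
    omega
  show (2 ^ (16 + Nat.div (Nat.mod q 256) 16) |||
    2 ^ (dig T (Nat.mod q 256))).testBit j = true ↔ _
  rw [Nat.testBit_or, h1, h2, Nat.testBit_two_pow, Nat.testBit_two_pow]
  simp only [Bool.or_eq_true, decide_eq_true_eq]
  constructor
  · rintro (h | h)
    · exact Or.inl h.symm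
    · exact Or.inr h.symm
  · rintro (h | h)
    · exact Or.inl h.symm
    · exact Or.inr h.symm

theorem walk_succ (T k q W : ℕ) : walk T (k + 1) q W =
    if W &&& tok T (Nat.mod q 256) = 0 then walk T k (q / 16) (W ||| tok T (Nat.mod q 256))
    else FF := by
  show Nat.rec (motive := fun _ => Nat)
        (walk T k (q / 16) (W ||| tok T (Nat.mod q 256))) (fun _ _ => FF)
        (W &&& tok T (Nat.mod q 256)) = _
  rcases h : W &&& tok T (Nat.mod q 256) with _ | m
  · rw [if_pos rfl]; rfl
  · rw [if_neg (by omega)]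

theorem or_aux (A B C D E : Prop) : (A ∨ B ∨ C) ∨ D ∨ E ↔ A ∨ (B ∨ D) ∨ C ∨ E := by tauto

theorem walk_spec (T : ℕ) : ∀ k q W, walk T k q W ≠ FF →
    (∀ j, (walk T k q W).testBit j = true ↔ W.testBit j = true ∨ (∃ v ∈ dl q k, j = 16 + v) ∨
      j ∈ codes T (q % 16 :: dl q k)) ∧
    (dl q k).Nodup ∧ (codes T (q % 16 :: dl q k)).Nodup ∧
    (∀ v ∈ dl q k, W.testBit (16 + v) = false) ∧
    (∀ x ∈ codes T (q % 16 :: dl q k), W.testBit x = false) := by
  intro k
  induction k with
  | zero =>
    intro q W _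
    refine ⟨fun j => ?_, List.nodup_nil, List.nodup_nil, ?_, ?_⟩
    · simp [walk, dl, codes]
    · intro v hv; simp [dl] at hv
    · intro v hv; simp [dl, codes] at hv
  | succ k ih =>
    intro q W hW
    rw [walk_succ] at hW
    by_cases h : W &&& tok T (Nat.mod q 256) = 0
    · rw [if_pos h] at hW
      obtain ⟨h1, h2, h3, h4, h5⟩ := ih _ _ hW
      have hdis : ∀ j, (tok T (Nat.mod q 256)).testBit j = true → W.testBit j = false := by
        intro j hj
        have h6 : (W &&& tok T (Nat.mod q 256)).testBit j = false := by rw [h]; simp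
        rw [Nat.testBit_and, hj] at h6
        simpa using h6
      have hv := hdis (16 + q / 16 % 16) ((tok_testBit T q _).2 (Or.inl rfl))
      have hx := hdis (dig T (q % 16 + 16 * (q / 16 % 16))) ((tok_testBit T q _).2 (Or.inr rfl))
      rw [walk_succ, if_pos h]
      refine ⟨fun j => ?_, ?_, ?_, ?_, ?_⟩
      · rw [h1 j, Nat.testBit_or, Bool.or_eq_true, tok_testBit]
        simp only [dl, codes, List.mem_cons, exists_eq_or_imp]
        exact or_aux _ _ _ _ _
      · simp only [dl, List.nodup_cons]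
        refine ⟨fun h6 => ?_, h2⟩
        have h7 := h4 _ h6
        rw [Nat.testBit_or, (tok_testBit T q _).2 (Or.inl rfl)] at h7
        simp at h7
      · simp only [dl, codes, List.nodup_cons]
        refine ⟨fun h6 => ?_, h3⟩
        have h7 := h5 _ h6
        rw [Nat.testBit_or, (tok_testBit T q _).2 (Or.inr rfl)] at h7
        simp at h7
      · intro v hv'
        simp only [dl, List.mem_cons] at hv'
        rcases hv' with rfl | hv'
        · exact hv
        · have h7 := h4 _ hv'
          rw [Nat.testBit_or, Bool.or_eq_false_iff] at h7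
          exact h7.1
      · intro x hx'
        simp only [dl, codes, List.mem_cons] at hx'
        rcases hx' with rfl | hx'
        · exact hx
        · have h7 := h5 _ hx'
          rw [Nat.testBit_or, Bool.or_eq_false_iff] at h7
          exact h7.1
    · rw [if_neg h] at hW
      exact absurd rfl hW

/-! ### Paths and colours -/

theorem cols_rev_append {c : ℕ → ℕ → ℕ} (hc : PC c) : ∀ (vs : List ℕ) (a : ℕ) (m : List ℕ),
    (∀ v ∈ a :: vs, v < 10) →
    (cols c ((a :: vs).reverse ++ m)).Perm (cols c (a :: vs) ++ cols c (a :: m))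
  | [], a, m, _ => by simp [cols]
  | v :: vs, a, m, h => by
    have h1 : ∀ u ∈ v :: vs, u < 10 := fun u hu => h u (List.mem_cons_of_mem _ hu)
    have ih := cols_rev_append hc vs v (a :: m) h1
    have e1 : (a :: v :: vs).reverse ++ m = (v :: vs).reverse ++ (a :: m) := by simp
    rw [e1]
    refine ih.trans ?_
    have e2 : cols c (v :: a :: m) = c a v :: cols c (a :: m) := by
      show c v a :: cols c (a :: m) = _
      rw [hc.symm v a (h v (by simp)) (h a (by simp))]
    have e3 : cols c (a :: v :: vs) = c a v :: cols c (v :: vs) := rfl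
    rw [e2, e3]
    exact List.perm_middle

/-- The partial colouring with table `T` and `K` codes is part of `c`, with the colours `φ`. -/
structure Tab (c : ℕ → ℕ → ℕ) (φ : ℕ → ℕ) (T K : ℕ) : Prop where
  inj : ∀ x y, 1 ≤ x → x ≤ K → 1 ≤ y → y ≤ K → φ x = φ y → x = y
  tab : ∀ u v, u < 10 → v < 10 → u ≠ v → dig T (u + 16 * v) ≠ 0 →
    dig T (u + 16 * v) ≤ K ∧ c u v = φ (dig T (u + 16 * v))

theorem cols_eq {c : ℕ → ℕ → ℕ} {φ : ℕ → ℕ} {T K : ℕ}
    (tab : ∀ u v, u < 10 → v < 10 → u ≠ v → dig T (u + 16 * v) ≠ 0 →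
      dig T (u + 16 * v) ≤ K ∧ c u v = φ (dig T (u + 16 * v))) :
    ∀ l : List ℕ, l.Nodup → (∀ v ∈ l, v < 10) → 0 ∉ codes T l →
      cols c l = (codes T l).map φ ∧ ∀ x ∈ codes T l, x ≤ K
  | [], _, _, _ => by simp [cols, codes]
  | [_], _, _, _ => by simp [cols, codes]
  | u :: v :: l, hn, hl, h0 => by
    have hn' : (v :: l).Nodup := hn.of_cons
    have hl' : ∀ w ∈ v :: l, w < 10 := fun w hw => hl w (List.mem_cons_of_mem _ hw)
    have h0' : 0 ∉ codes T (v :: l) := fun h => h0 (List.mem_cons_of_mem _ h)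
    obtain ⟨h1, h2⟩ := cols_eq tab (v :: l) hn' hl' h0'
    have huv : u ≠ v := by
      rintro rfl
      simp at hn
    have h3 : dig T (u + 16 * v) ≠ 0 := fun h => h0 (by
      show 0 ∈ dig T (u + 16 * v) :: codes T (v :: l)
      rw [h]; exact List.mem_cons_self)
    obtain ⟨h4, h5⟩ := tab u v (hl u (by simp)) (hl v (by simp)) huv h3
    constructor
    · show c u v :: cols c (v :: l) = φ (dig T (u + 16 * v)) :: (codes T (v :: l)).map φ
      rw [h1, h5]
    · intro x hx
      rcases List.mem_cons.1 hx with rfl | hx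
      · exact h4
      · exact h2 x hx

/-! ### Witnesses -/

/-- The bits of the vertices `10, …, 15` and the bit `0`. -/
def BASE : ℕ := 4227858433

theorem BASE_zero : BASE.testBit 0 = true := by decide

theorem BASE_ge (v : ℕ) (h1 : 10 ≤ v) (h2 : v < 16) : BASE.testBit (16 + v) = true := by
  interval_cases v <;> decide

/-- The initial mask of a walk. -/
def W0 (a b : ℕ) : ℕ := (BASE ||| 2 ^ (16 + a)) ||| 2 ^ (16 + b)

theorem W0_zero (a b : ℕ) : (W0 a b).testBit 0 = true := by
  rw [W0, Nat.testBit_or, Nat.testBit_or, BASE_zero]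
  rfl

theorem W0_ge (a b v : ℕ) (h1 : 10 ≤ v) (h2 : v < 16) : (W0 a b).testBit (16 + v) = true := by
  simp [W0, Nat.testBit_or, BASE_ge v h1 h2]

theorem W0_a (a b : ℕ) : (W0 a b).testBit (16 + a) = true := by
  simp [W0, Nat.testBit_or, Nat.testBit_two_pow]

theorem W0_b (a b : ℕ) : (W0 a b).testBit (16 + b) = true := by
  simp [W0, Nat.testBit_or, Nat.testBit_two_pow]

theorem wit_bit {c : ℕ → ℕ → ℕ} (hc : PC c) {L2 : ℕ}
    (hno : ∀ l : List ℕ, l.length = L2 + 2 → ¬ RB c l) {T K K' : ℕ} {φ : ℕ → ℕ}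
    (hinj : ∀ x y, 1 ≤ x → x ≤ K' → 1 ≤ y → y ≤ K' → φ x = φ y → x = y)
    (tab : ∀ u v, u < 10 → v < 10 → u ≠ v → dig T (u + 16 * v) ≠ 0 →
      dig T (u + 16 * v) ≤ K ∧ c u v = φ (dig T (u + 16 * v))) (hK : K ≤ K')
    {a b x : ℕ} (ha : a < 10) (hb : b < 10) (hab : a ≠ b) (hx : x < 16) (hx1 : 1 ≤ x)
    (hxK : x ≤ K') (hφ : c a b = φ x) (r p : ℕ) :
    (wit T (W0 a b) L2 a b r p).testBit x = true := by
  by_contra h
  have hFF : FF.testBit x = true := by rw [testBit_FF]; simp; omega
  by_cases hr : r ≤ L2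
  · have e1 : wit T (W0 a b) L2 a b r p =
        walk T (L2 - r) (16 * (p >>> (4 * r)) + b) (walk T r (16 * p + a) (W0 a b)) := by
      have : Nat.ble r L2 = true := Nat.ble_eq_true_of_le hr
      unfold wit
      rw [this]
      rfl
    rw [e1] at h
    set W1 := walk T r (16 * p + a) (W0 a b) with hW1
    set q2 := 16 * (p >>> (4 * r)) + b with hq2
    have hW2 : walk T (L2 - r) q2 W1 ≠ FF := fun h1 => h (by rw [h1]; exact hFF)
    obtain ⟨s1, s2, s3, s4, s5⟩ := walk_spec T _ _ _ hW2
    have hW1F : W1 ≠ FF := fun h1 => h (by rw [s1, h1]; exact Or.inl hFF)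
    obtain ⟨t1, t2, t3, t4, t5⟩ := walk_spec T _ _ _ hW1F
    rw [← hW1] at t1
    have ea : (16 * p + a) % 16 = a := by omega
    have eb : q2 % 16 = b := by omega
    rw [ea] at t1 t3 t5
    rw [eb] at s1 s3 s5
    set v1 := dl (16 * p + a) r with hv1
    set v2 := dl q2 (L2 - r) with hv2
    have hl1 : v1.length = r := dl_length _ _
    have hl2 : v2.length = L2 - r := dl_length _ _
    have hv1l : ∀ v ∈ v1, v < 10 := fun v hv => by
      by_contra hlt
      have h1 := W0_ge a b v (by omega) (dl_lt _ _ v hv)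
      rw [t4 v hv] at h1
      simp at h1
    have hW01 : ∀ j, (W0 a b).testBit j = true → W1.testBit j = true :=
      fun j hj => (t1 j).2 (Or.inl hj)
    have hv2l : ∀ v ∈ v2, v < 10 := fun v hv => by
      by_contra hlt
      have h1 := hW01 _ (W0_ge a b v (by omega) (dl_lt _ _ v hv))
      rw [s4 v hv] at h1
      simp at h1
    have ha1 : a ∉ v1 := fun hm => by
      have h1 := t4 a hm
      rw [W0_a] at h1
      simp at h1
    have hb1 : b ∉ v1 := fun hm => by
      have h1 := t4 b hm
      rw [W0_b] at h1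
      simp at h1
    have ha2 : a ∉ v2 := fun hm => by
      have h1 := s4 a hm
      rw [hW01 _ (W0_a a b)] at h1
      simp at h1
    have hb2 : b ∉ v2 := fun hm => by
      have h1 := s4 b hm
      rw [hW01 _ (W0_b a b)] at h1
      simp at h1
    have h12 : ∀ v ∈ v1, v ∉ v2 := fun v hm1 hm2 => by
      have h1 := s4 v hm2
      rw [(t1 (16 + v)).2 (Or.inr (Or.inl ⟨v, hm1, rfl⟩))] at h1
      simp at h1
    have n1 : (a :: v1).Nodup := List.nodup_cons.2 ⟨ha1, t2⟩
    have n2 : (b :: v2).Nodup := List.nodup_cons.2 ⟨hb2, s2⟩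
    have m1 : ∀ v ∈ a :: v1, v < 10 := fun v hv => by
      rcases List.mem_cons.1 hv with rfl | hv
      · exact ha
      · exact hv1l v hv
    have m2 : ∀ v ∈ b :: v2, v < 10 := fun v hv => by
      rcases List.mem_cons.1 hv with rfl | hv
      · exact hb
      · exact hv2l v hv
    have z1 : 0 ∉ codes T (a :: v1) := fun h0 => by
      have h1 := t5 0 h0
      rw [W0_zero] at h1
      simp at h1
    have z2 : 0 ∉ codes T (b :: v2) := fun h0 => by
      have h1 := s5 0 h0
      rw [hW01 _ (W0_zero a b)] at h1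
      simp at h1
    obtain ⟨c1, k1⟩ := cols_eq tab _ n1 m1 z1
    obtain ⟨c2, k2⟩ := cols_eq tab _ n2 m2 z2
    refine hno ((a :: v1).reverse ++ (b :: v2)) ?_ ⟨?_, ?_, ?_⟩
    · simp [hl1, hl2]; omega
    · rw [List.nodup_append]
      refine ⟨List.nodup_reverse.2 n1, n2, ?_⟩
      intro u hu w hw
      rw [List.mem_reverse] at hu
      rintro rfl
      rcases List.mem_cons.1 hu with rfl | hu
      · rcases List.mem_cons.1 hw with h1 | h1
        · exact hab h1
        · exact ha2 h1
      · rcases List.mem_cons.1 hw with rfl | h1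
        · exact hb1 hu
        · exact h12 _ hu h1
    · intro v hv
      rw [List.mem_append, List.mem_reverse] at hv
      rcases hv with hv | hv
      · exact m1 v hv
      · exact m2 v hv
    · have hp := cols_rev_append hc v1 a (b :: v2) m1
      rw [hp.nodup_iff]
      have e2 : cols c (a :: v1) ++ cols c (a :: b :: v2) =
          (codes T (a :: v1) ++ x :: codes T (b :: v2)).map φ := by
        show cols c (a :: v1) ++ (c a b :: cols c (b :: v2)) = _
        rw [c1, c2, hφ]
        simp
      rw [e2]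
      have hb1' : ∀ y ∈ codes T (a :: v1) ++ x :: codes T (b :: v2), 1 ≤ y ∧ y ≤ K' := by
        intro y hy
        rw [List.mem_append, List.mem_cons] at hy
        rcases hy with hy | rfl | hy
        · refine ⟨?_, (k1 y hy).trans hK⟩
          rcases Nat.eq_zero_or_pos y with rfl | h1
          · exact absurd hy z1
          · exact h1
        · exact ⟨hx1, hxK⟩
        · refine ⟨?_, (k2 y hy).trans hK⟩
          rcases Nat.eq_zero_or_pos y with rfl | h1
          · exact absurd hy z2
          · exact h1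
      refine List.Nodup.map_on ?_ ?_
      · intro y hy z hz hyz
        exact hinj y z (hb1' y hy).1 (hb1' y hy).2 (hb1' z hz).1 (hb1' z hz).2 hyz
      · rw [List.nodup_append, List.nodup_cons]
        refine ⟨t3, ⟨?_, s3⟩, ?_⟩
        · intro hm
          exact h ((s1 x).2 (Or.inr (Or.inr hm)))
        · intro y hy z hz
          rintro rfl
          rcases List.mem_cons.1 hz with rfl | hz
          · exact h ((s1 _).2 (Or.inl ((t1 _).2 (Or.inr (Or.inr hy)))))
          · have h1 := s5 y hz
            rw [(t1 y).2 (Or.inr (Or.inr hy))] at h1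
            simp at h1
  · have e1 : wit T (W0 a b) L2 a b r p = FF := by
      have : Nat.ble r L2 = false := by
        rw [Bool.eq_false_iff]
        intro h1
        exact hr (Nat.le_of_ble_eq_true h1)
      unfold wit
      rw [this]
      rfl
    rw [e1] at h
    exact h hFF

/-! ### Nodes -/

theorem wits_bit {T W L2 a b x : ℕ} (h : ∀ r p, (wit T W L2 a b r p).testBit x = true) :
    ∀ m C A, (wits T W L2 a b m C A).testBit x = A.testBit x := by
  intro m
  induction m with
  | zero => intro C A; rfl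
  | succ m ih =>
    intro C A
    have e : wits T W L2 a b (m + 1) C A = wits T W L2 a b m (Nat.shiftRight C (Nat.mul 4 (Nat.succ L2)))
        (A &&& (wit T W L2 a b (Nat.mod C 16) (Nat.mod (Nat.div C 16) (Nat.pow 16 L2)))) := rfl
    rw [e, ih, Nat.testBit_and, h, Bool.and_true]

theorem full_bit (K x : ℕ) (hK : K ≤ 14) (h1 : 1 ≤ x) (h2 : x ≤ K + 1) :
    (Nat.sub (Nat.pow 2 (Nat.add K 2)) 2).testBit x = true := by
  interval_cases K <;> interval_cases x <;> decide

theorem accs_kids {T M K a b x : ℕ} : ∀ r C A (st : List St), (accs r C A).testBit x = true →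
    A.testBit x = true ∨ upd T M K a b x ∈ kids T M K a b r C st := by
  have hsub : ∀ r C (st : List St) (s : St), s ∈ st → s ∈ kids T M K a b r C st := by
    intro r
    induction r with
    | zero => intro C st s hs; exact hs
    | succ r ih =>
      intro C st s hs
      exact ih _ _ s (List.mem_cons_of_mem _ hs)
  intro r
  induction r with
  | zero => intro C A st h; exact Or.inl h
  | succ r ih =>
    intro C A st h
    have e : accs (r + 1) C A = accs r (Nat.div C 16) (A ||| 2 ^ (Nat.mod C 16)) := rfl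
    rw [e] at h
    rcases ih _ _ (upd T M K a b (Nat.mod C 16) :: st) h with h1 | h1
    · rw [Nat.testBit_or, Bool.or_eq_true, Nat.testBit_two_pow, decide_eq_true_eq] at h1
      rcases h1 with h1 | h1
      · exact Or.inl h1
      · right
        have h2 : upd T M K a b x ∈ kids T M K a b r (Nat.div C 16)
            (upd T M K a b (Nat.mod C 16) :: st) := by
          apply hsub
          rw [h1]
          exact List.mem_cons_self
        exact h2
    · exact Or.inr h1

theorem kids_sub {T M K a b : ℕ} : ∀ r C (st : List St) (s : St), s ∈ st →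
    s ∈ kids T M K a b r C st := by
  intro r
  induction r with
  | zero => intro C st s hs; exact hs
  | succ r ih =>
    intro C st s hs
    exact ih _ _ s (List.mem_cons_of_mem _ hs)

/-- The state `s` is part of the colouring `c`, with the colours `φ`. -/
structure RealW (c : ℕ → ℕ → ℕ) (φ : ℕ → ℕ) (s : St) : Prop where
  inj : ∀ x y, 1 ≤ x → x ≤ s.K → 1 ≤ y → y ≤ s.K → φ x = φ y → x = y
  tab : ∀ u v, u < 10 → v < 10 → u ≠ v → dig s.T (u + 16 * v) ≠ 0 →
    dig s.T (u + 16 * v) ≤ s.K ∧ c u v = φ (dig s.T (u + 16 * v))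
  msk : ∀ u x, u < 10 → x < 16 → s.M.testBit (16 * u + x) = true →
    x ≠ 0 ∧ x ≤ s.K ∧ ∃ v, v < 10 ∧ v ≠ u ∧ dig s.T (u + 16 * v) = x

/-- The state `s` is part of the colouring `c`. -/
def Real (c : ℕ → ℕ → ℕ) (s : St) : Prop := ∃ φ, RealW c φ s

theorem dig_or (T X j : ℕ) : dig (T ||| X) j = dig T j ||| dig X j := by
  apply Nat.eq_of_testBit_eq
  intro i
  rw [Nat.testBit_or, testBit_dig, testBit_dig, testBit_dig, Nat.testBit_or]
  cases decide (i < 4) <;> simp

theorem dig_shift (x s j : ℕ) (hx : x < 16) : dig (x <<< (4 * s)) j = if j = s then x else 0 := by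
  apply Nat.eq_of_testBit_eq
  intro i
  rw [testBit_dig, Nat.testBit_shiftLeft]
  have hbig : ∀ k, 4 ≤ k → x.testBit k = false := fun k hk =>
    Nat.testBit_lt_two_pow (lt_of_lt_of_le hx (by
      calc (16 : ℕ) = 2 ^ 4 := by norm_num
        _ ≤ 2 ^ k := Nat.pow_le_pow_right (by norm_num) hk))
  by_cases hj : j = s
  · subst hj
    rw [if_pos rfl]
    have h1 : 4 * j + i - 4 * j = i := by omega
    rw [h1]
    by_cases hi : i < 4
    · simp [hi]
    · simp [hi, hbig i (by omega)]
  · rw [if_neg hj, Nat.zero_testBit]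
    by_cases hi : i < 4
    · rcases Nat.lt_or_gt_of_ne hj with h1 | h1
      · have h2 : ¬ (4 * j + i ≥ 4 * s) := by omega
        simp [h2]
      · have h2 : x.testBit (4 * j + i - 4 * s) = false := hbig _ (by omega)
        simp [h2]
    · simp [hi]

theorem upd_T (T M K a b x : ℕ) : (upd T M K a b x).T =
    T ||| ((x <<< (4 * (a + 16 * b))) ||| (x <<< (4 * (b + 16 * a)))) := rfl

theorem upd_M (T M K a b x : ℕ) : (upd T M K a b x).M =
    M ||| (((2 ^ x) <<< (16 * a)) ||| ((2 ^ x) <<< (16 * b))) := rfl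

theorem upd_K (T M K a b x : ℕ) : (upd T M K a b x).K = max K x := by
  show cond (Nat.ble x K) K x = _
  by_cases h : x ≤ K
  · rw [Nat.ble_eq_true_of_le h, max_eq_left h]; rfl
  · have : Nat.ble x K = false := by
      rw [Bool.eq_false_iff]
      intro h1
      exact h (Nat.le_of_ble_eq_true h1)
    rw [this, max_eq_right (by omega)]; rfl

theorem upd_dig {T M K a b x : ℕ} (ha : a < 10) (hb : b < 10) (hx : x < 16)
    (h1 : dig T (a + 16 * b) = 0) (h2 : dig T (b + 16 * a) = 0) (u v : ℕ)
    (hu : u < 10) (hv : v < 10) :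
    dig (upd T M K a b x).T (u + 16 * v) =
      if (u = a ∧ v = b) ∨ (u = b ∧ v = a) then x else dig T (u + 16 * v) := by
  rw [upd_T, dig_or, dig_or, dig_shift _ _ _ hx, dig_shift _ _ _ hx]
  by_cases e1 : u = a ∧ v = b
  · obtain ⟨rfl, rfl⟩ := e1
    rw [if_pos rfl, if_pos (Or.inl ⟨rfl, rfl⟩), h1]
    by_cases e2 : u + 16 * v = v + 16 * u
    · rw [if_pos e2]; simp
    · rw [if_neg e2]; simp
  · by_cases e2 : u = b ∧ v = a
    · obtain ⟨rfl, rfl⟩ := e2
      rw [if_pos rfl, if_pos (Or.inr ⟨rfl, rfl⟩), h2, if_neg (by omega)]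
      simp
    · rw [if_neg (by omega), if_neg (by omega), if_neg (by tauto)]
      simp

theorem shift_bit (x y u a : ℕ) (hx : x < 16) (hy : y < 16) :
    ((2 ^ x) <<< (16 * a)).testBit (16 * u + y) = true ↔ u = a ∧ y = x := by
  rw [Nat.testBit_shiftLeft, Bool.and_eq_true, Nat.testBit_two_pow, decide_eq_true_eq,
    decide_eq_true_eq]
  constructor
  · rintro ⟨h1, h2⟩
    omega
  · rintro ⟨rfl, rfl⟩
    omega

/-- Colouring the edge `a b` of a state. -/
theorem RealW.upd {c : ℕ → ℕ → ℕ} (hc : PC c) {φ : ℕ → ℕ} {T M K a b x : ℕ}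
    (h : RealW c φ ⟨T, M, K⟩) (ha : a < 10) (hb : b < 10) (hab : a ≠ b) (hx : x < 16)
    (hx1 : 1 ≤ x) (h1 : dig T (a + 16 * b) = 0) (h2 : dig T (b + 16 * a) = 0)
    (hφ : c a b = φ x)
    (hinj : ∀ y z, 1 ≤ y → y ≤ max K x → 1 ≤ z → z ≤ max K x → φ y = φ z → y = z) :
    RealW c φ (upd T M K a b x) := by
  have hd := upd_dig (M := M) (K := K) ha hb hx h1 h2
  refine ⟨?_, ?_, ?_⟩
  · rw [upd_K]; exact hinj
  · intro u v hu hv huv hne
    rw [upd_K]
    rw [hd u v hu hv] at hne ⊢
    by_cases e : (u = a ∧ v = b) ∨ (u = b ∧ v = a)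
    · rw [if_pos e]
      refine ⟨le_max_right _ _, ?_⟩
      rcases e with ⟨rfl, rfl⟩ | ⟨rfl, rfl⟩
      · exact hφ
      · rw [hc.symm _ _ hu hv]; exact hφ
    · rw [if_neg e] at hne ⊢
      obtain ⟨h3, h4⟩ := h.tab u v hu hv huv hne
      exact ⟨h3.trans (le_max_left _ _), h4⟩
  · intro u y hu hy hbit
    rw [upd_K]
    rw [upd_M, Nat.testBit_or, Nat.testBit_or, Bool.or_eq_true, Bool.or_eq_true,
      shift_bit _ _ _ _ hx hy, shift_bit _ _ _ _ hx hy] at hbit
    rcases hbit with hbit | ⟨rfl, rfl⟩ | ⟨rfl, rfl⟩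
    · obtain ⟨h3, h4, v, hv, hvu, h5⟩ := h.msk u y hu hy hbit
      refine ⟨h3, h4.trans (le_max_left _ _), v, hv, hvu, ?_⟩
      rw [hd u v hu hv]
      have h5' : dig T (u + 16 * v) = y := h5
      by_cases e : (u = a ∧ v = b) ∨ (u = b ∧ v = a)
      · exfalso
        rcases e with ⟨rfl, rfl⟩ | ⟨rfl, rfl⟩
        · exact h3 (h5'.symm.trans h1)
        · exact h3 (h5'.symm.trans h2)
      · rw [if_neg e]; exact h5'
    · refine ⟨by omega, le_max_right _ _, b, hb, fun h => hab h.symm, ?_⟩
      rw [hd _ _ hu hb, if_pos (Or.inl ⟨rfl, rfl⟩)]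
    · refine ⟨by omega, le_max_right _ _, a, ha, hab, ?_⟩
      rw [hd _ _ hu ha, if_pos (Or.inr ⟨rfl, rfl⟩)]

theorem cond_true_left {b c : Bool} (h : cond b c false = true) : b = true ∧ c = true := by
  cases b
  · exact absurd h (by simp)
  · exact ⟨rfl, h⟩

theorem okk_spec {T K a b : ℕ} (h : okk BASE T K a b = true) (ha : a < 16) (hb : b < 16) :
    a < 10 ∧ b < 10 ∧ a ≠ b ∧ dig T (a + 16 * b) = 0 ∧ dig T (b + 16 * a) = 0 ∧ K ≤ 14 := by
  obtain ⟨h1, h⟩ := cond_true_left h
  obtain ⟨h2, h⟩ := cond_true_left h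
  obtain ⟨h3, h⟩ := cond_true_left h
  obtain ⟨h4, h5⟩ := cond_true_left h
  have h1 : BASE &&& 2 ^ (16 + a) = 0 := Nat.eq_of_beq_eq_true h1
  have h2 : (BASE ||| 2 ^ (16 + a)) &&& 2 ^ (16 + b) = 0 := Nat.eq_of_beq_eq_true h2
  have h3 : dig T (a + 16 * b) = 0 := Nat.eq_of_beq_eq_true h3
  have h4 : dig T (b + 16 * a) = 0 := Nat.eq_of_beq_eq_true h4
  have h5 : K ≤ 14 := Nat.le_of_ble_eq_true h5
  have a10 : a < 10 := by
    by_contra hlt
    have h6 : (BASE &&& 2 ^ (16 + a)).testBit (16 + a) = true := by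
      rw [Nat.testBit_and, BASE_ge a (by omega) ha, Nat.testBit_two_pow]
      simp
    rw [h1] at h6
    simp at h6
  have b10 : b < 10 := by
    by_contra hlt
    have h6 : ((BASE ||| 2 ^ (16 + a)) &&& 2 ^ (16 + b)).testBit (16 + b) = true := by
      rw [Nat.testBit_and, Nat.testBit_or, BASE_ge b (by omega) hb, Nat.testBit_two_pow]
      simp
    rw [h2] at h6
    simp at h6
  refine ⟨a10, b10, ?_, h3, h4, h5⟩
  rintro rfl
  have h6 : ((BASE ||| 2 ^ (16 + a)) &&& 2 ^ (16 + a)).testBit (16 + a) = true := by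
    rw [Nat.testBit_and, Nat.testBit_or, Nat.testBit_two_pow]
    simp
  rw [h2] at h6
  simp at h6

theorem node_core {c : ℕ → ℕ → ℕ} (hc : PC c) {L2 : ℕ}
    (hno : ∀ l : List ℕ, l.length = L2 + 2 → ¬ RB c l) {T M K a b m C C1 r : ℕ} {st : List St}
    {φ : ℕ → ℕ} {x : ℕ}
    (hR : RealW c φ ⟨T, M, K⟩) (hx1 : 1 ≤ x) (hxK : x ≤ K + 1) (hφ : c a b = φ x)
    (hinj : ∀ y z, 1 ≤ y → y ≤ max K x → 1 ≤ z → z ≤ max K x → φ y = φ z → y = z)
    (ha : a < 10) (hb : b < 10) (hab : a ≠ b) (h3 : dig T (a + 16 * b) = 0)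
    (h4 : dig T (b + 16 * a) = 0) (hK : K ≤ 14)
    (h : chk (dom BASE L2 T M K a b m C) (used M a b) (accs r C1 0) = true) :
    ∃ s ∈ kids T M K a b r C1 st, Real c s := by
  have hx : x < 16 := by omega
  have hA : (dom BASE L2 T M K a b m C).testBit x = true := by
    have e : dom BASE L2 T M K a b m C = wits T (W0 a b) L2 a b m C
        (Nat.sub (Nat.pow 2 (Nat.add K 2)) 2) := rfl
    rw [e, wits_bit, full_bit K x hK hx1 hxK]
    intro r p
    exact wit_bit hc hno (K := K) hinj hR.tab (le_max_left _ _) ha hb hab hx hx1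
      (le_max_right _ _) hφ r p
  have hN : (used M a b).testBit x = false := by
    have e : used M a b = (M >>> (16 * a)) ||| (M >>> (16 * b)) := rfl
    rw [e, Nat.testBit_or, Nat.testBit_shiftRight, Nat.testBit_shiftRight, Bool.or_eq_false_iff]
    constructor
    · rw [Bool.eq_false_iff]
      intro hbit
      obtain ⟨h5, h6, v, hv, hva, h7⟩ := hR.msk a x ha hx hbit
      have hvb : v ≠ b := by
        rintro rfl
        exact h5 (h7.symm.trans h3)
      have h8 := (hR.tab a v ha hv (fun h => hva h.symm) (by rw [h7]; exact h5)).2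
      rw [h7] at h8
      exact hc.prop a b v ha hb hv hab (fun h => hva h.symm) (fun h => hvb h.symm)
        (hφ.trans h8.symm)
    · rw [Bool.eq_false_iff]
      intro hbit
      obtain ⟨h5, h6, v, hv, hvb, h7⟩ := hR.msk b x hb hx hbit
      have hva : v ≠ a := by
        rintro rfl
        exact h5 (h7.symm.trans h4)
      have h8 := (hR.tab b v hb hv (fun h => hvb h.symm) (by rw [h7]; exact h5)).2
      rw [h7] at h8
      exact hc.prop b a v hb ha hv (fun h => hab h.symm) (fun h => hvb h.symm)
        (fun h => hva h.symm) ((hc.symm b a hb ha).trans (hφ.trans h8.symm))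
  have hacc : (accs r C1 0).testBit x = true := by
    have h5 : accs r C1 0 = (dom BASE L2 T M K a b m C) ^^^ ((dom BASE L2 T M K a b m C) &&&
        (used M a b)) := Nat.eq_of_beq_eq_true h
    rw [h5, Nat.testBit_xor, Nat.testBit_and, hA, hN]
    rfl
  rcases accs_kids (T := T) (M := M) (K := K) (a := a) (b := b) r C1 0 st hacc with h5 | h5
  · simp at h5
  · exact ⟨_, h5, φ, hR.upd hc ha hb hab hx hx1 h3 h4 hφ hinj⟩

theorem node_sound {c : ℕ → ℕ → ℕ} (hc : PC c) {L2 : ℕ}
    (hno : ∀ l : List ℕ, l.length = L2 + 2 → ¬ RB c l) {T M K a b m C C1 r : ℕ} {st : List St}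
    (ha : a < 16) (hb : b < 16) (hR : Real c ⟨T, M, K⟩)
    (hok : okk BASE T K a b = true)
    (h : chk (dom BASE L2 T M K a b m C) (used M a b) (accs r C1 0) = true) :
    ∃ s ∈ kids T M K a b r C1 st, Real c s := by
  obtain ⟨φ, hφ⟩ := hR
  obtain ⟨ha, hb, hab, h3, h4, hK⟩ := okk_spec hok ha hb
  by_cases hex : ∃ x, 1 ≤ x ∧ x ≤ K ∧ c a b = φ x
  · obtain ⟨x, hx1, hxK, hx⟩ := hex
    refine node_core hc hno hφ hx1 (by omega) hx ?_ ha hb hab h3 h4 hK h
    rw [max_eq_left hxK]
    exact hφ.inj
  · have hne : ∀ y, y ≤ K → Function.update φ (K + 1) (c a b) y = φ y := fun y hy =>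
      Function.update_of_ne (by omega) _ _
    have hR' : RealW c (Function.update φ (K + 1) (c a b)) ⟨T, M, K⟩ := by
      refine ⟨?_, ?_, ?_⟩
      · intro y z h5 h6 h7 h8 h9
        rw [hne y h6, hne z h8] at h9
        exact hφ.inj y z h5 h6 h7 h8 h9
      · intro u v hu hv huv h5
        obtain ⟨h6, h7⟩ := hφ.tab u v hu hv huv h5
        exact ⟨h6, by rw [hne _ h6]; exact h7⟩
      · exact hφ.msk
    refine node_core hc hno hR' (x := K + 1) (by omega) le_rfl ?_ ?_ ha hb hab h3 h4 hK h
    · rw [Function.update_self]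
    · rw [max_eq_right (by omega)]
      intro y z h5 h6 h7 h8 h9
      rcases Nat.lt_or_ge y (K + 1) with h10 | h10
      · rcases Nat.lt_or_ge z (K + 1) with h11 | h11
        · rw [hne y (by omega), hne z (by omega)] at h9
          exact hφ.inj y z h5 (by show y ≤ K; omega) h7 (by show z ≤ K; omega) h9
        · have : z = K + 1 := by omega
          subst this
          rw [hne y (by omega), Function.update_self] at h9
          exact absurd ⟨y, h5, by omega, h9.symm⟩ hex
      · have : y = K + 1 := by omega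
        subst this
        rcases Nat.lt_or_ge z (K + 1) with h11 | h11
        · rw [hne z (by omega), Function.update_self] at h9
          exact absurd ⟨z, h7, by omega, h9⟩ hex
        · omega

theorem run_nil (base L2 f C : ℕ) (Cs : List ℕ) (out : List St) :
    run base L2 (f + 1) C Cs [] out = some out := rfl

theorem run_zero (base L2 C : ℕ) (Cs : List ℕ) (st out : List St) :
    run base L2 0 C Cs st out = none := rfl

theorem run_block (base L2 f : ℕ) (s : St) (Cs : List ℕ) (st out : List St) :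
    run base L2 (f + 1) 0 Cs (s :: st) out =
      match Cs with
      | [] => none
      | C :: Cs => run base L2 f C Cs (s :: st) out := by
  cases Cs <;> rfl

theorem run_step (base L2 f C : ℕ) (s : St) (Cs : List ℕ) (st out : List St) :
    run base L2 (f + 1) (C + 1) Cs (s :: st) out =
      step0 (run base L2 f) base L2 (C + 1) Cs s st out := rfl

theorem run_sound {c : ℕ → ℕ → ℕ} (hc : PC c) {L2 : ℕ}
    (hno : ∀ l : List ℕ, l.length = L2 + 2 → ¬ RB c l) :
    ∀ (fuel C : ℕ) (Cs : List ℕ) (st out res : List St),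
      run BASE L2 fuel C Cs st out = some res → (∀ s ∈ res, ¬ Real c s) →
      (∀ s ∈ st, ¬ Real c s) ∧ (∀ s ∈ out, ¬ Real c s) := by
  intro fuel
  induction fuel with
  | zero => intro C Cs st out res h; rw [run_zero] at h; exact absurd h (by simp)
  | succ f ih =>
    intro C Cs st out res h hres
    rcases st with _ | ⟨s, st⟩
    · rw [run_nil, Option.some.injEq] at h
      subst h
      exact ⟨fun s hs => absurd hs (by simp), hres⟩
    · rcases C with _ | C
      · rw [run_block] at h
        rcases Cs with _ | ⟨C, Cs⟩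
        · exact absurd h (by simp)
        · exact ih C Cs _ _ _ h hres
      · rw [run_step] at h
        obtain ⟨T, M, K⟩ := s
        unfold step0 at h
        simp only [force_eq] at h
        generalize hC : C + 1 = C' at h
        have ha : Nat.mod C' 16 < 16 := Nat.mod_lt _ (by norm_num)
        have hb : Nat.mod (Nat.div C' 16) 16 < 16 := Nat.mod_lt _ (by norm_num)
        generalize Nat.mod C' 16 = a at h ha
        generalize Nat.mod (Nat.div C' 16) 16 = b at h hb
        generalize Nat.mod (Nat.div C' 256) 16 = m at h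
        generalize Nat.div C' 4096 = C2 at h
        unfold step at h
        cases hm : Nat.beq m 15 with
        | true =>
          rw [hm] at h
          have h' : run BASE L2 f C2 Cs st (⟨T, M, K⟩ :: out) = some res := h
          obtain ⟨h1, h2⟩ := ih _ _ _ _ _ h' hres
          refine ⟨?_, fun s hs => h2 s (List.mem_cons_of_mem _ hs)⟩
          intro s hs
          rcases List.mem_cons.1 hs with rfl | hs
          · exact h2 _ List.mem_cons_self
          · exact h1 s hs
        | false =>
          rw [hm] at h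
          simp only [cond_false, force_eq] at h
          unfold fin at h
          cases hok : okk BASE T K a b with
          | false => rw [hok] at h; exact absurd h (by simp)
          | true =>
            rw [hok, cond_true] at h
            generalize Nat.shiftRight C2 (Nat.mul (Nat.mul 4 (Nat.succ L2)) m) = C3 at h
            generalize Nat.div C3 16 = C4 at h
            generalize Nat.mod C3 16 = r at h
            cases hchk : chk (dom BASE L2 T M K a b m C2) (used M a b) (accs r C4 0) with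
            | false => rw [hchk] at h; exact absurd h (by simp)
            | true =>
              rw [hchk, cond_true] at h
              obtain ⟨h1, h2⟩ := ih _ _ _ _ _ h hres
              refine ⟨?_, h2⟩
              intro s hs
              rcases List.mem_cons.1 hs with rfl | hs
              · intro hR
                obtain ⟨s', hs', hR'⟩ := node_sound hc hno (st := st) ha hb hR hok hchk
                exact h1 s' hs' hR'
              · exact h1 s (kids_sub _ _ _ _ hs)

end Pool.Agent.W421.HP
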