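import Pool.Agent.W421.HP.C1
import Pool.Agent.W421.HP.C2
import Pool.Agent.W421.HP.C3
import Pool.Agent.W421.HP.C4
import Pool.Agent.W421.HP.C5
import Pool.Agent.W421.HP.C6
import Pool.Agent.W421.HP.C7
import Pool.Agent.W421.HP.C8
import Pool.Agent.W421.HP.C9
import Pool.Agent.W421.HP.Small
import Pool.Agent.W421.HP.Sound

set_option autoImplicit false
set_option maxRecDepth 100000

/-!
# Certificates for rainbow Hamiltonian paths in properly edge coloured `K_10`, the top of the trees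
-/

namespace Pool.Agent.W421.HP

/-- The leaves of the top of the tree. -/
def L1 : List St := [s1_0, s1_1, s1_2, s1_3, s1_4, s1_5, s1_6, s1_7, s1_8, s1_9, s1_10, s1_11, s1_12, s1_13, s1_14, s1_15, s1_16, s1_17, s1_18, s1_19, s1_20, s1_21, s1_22, s1_23, s1_24, s1_25, s1_26, s1_27, s1_28, s1_29, s1_30, s1_31, s1_32, s1_33, s1_34, s1_35, s1_36, s1_37, s1_38, s1_39, s1_40, s1_41, s1_42, s1_43, s1_44, s1_45, s1_46, s1_47, s1_48, s1_49, s1_50, s1_51, s1_52, s1_53, s1_54, s1_55, s1_56, s1_57, s1_58, s1_59, s1_60, s1_61, s1_62, s1_63, s1_64, s1_65, s1_66, s1_67, s1_68, s1_69, s1_70, s1_71, s1_72, s1_73, s1_74, s1_75, s1_76, s1_77, s1_78, s1_79, s1_80]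

theorem t1 : run 4227858433 8 114 0
    [0xf00f00f00f00f0074314670192346185f00f00f00f00f00854215780123453196f00f00f00f00f0065421580123456419787654163456780181929765436234567912180,
     0xf00f00f00f00f00f00f00654315012345676198854315780123454196f00f00f00f00f00876525456780128193f00f00f00f0076514456701924183,
     0xf00f00f00f0075434012345676198f00f00f00f00f00f0054314012345676198f00874315678012343195f00f00f00f0065434012345676198f00,
     0xf0076514012345676198f00f00f00876325321087655194f00f00f00f0097414670195436182f00f00f00f00f0076314012345676198f00f00874325432108764195,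
     0xf00f00876545345678018192f00f00f00f00f0087424987643214150f00f00f00f0085424987543215160f00765415012345676198f00f00f00f00,
     0xf00f00f00]
    [init 9 1] [] = some L1 := by decide +kernel

theorem u1 {c : ℕ → ℕ → ℕ} (hc : PC c) (hno : ∀ l : List ℕ, l.length = 10 → ¬ RB c l) :
    ∀ s ∈ L1, ¬ Real c s := by
  have h : ∀ (f : ℕ) (Cs : List ℕ) (s : St), run BASE 8 f 0 Cs [s] [] = some [] → ¬ Real c s :=
    fun f Cs s hr => (run_sound hc hno f 0 Cs [s] [] [] hr (by simp)).1 s (by simp)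
  intro s hs
  simp only [L1, List.mem_cons, List.not_mem_nil, or_false] at hs
  rcases hs with rfl | rfl | rfl | rfl | rfl | rfl | rfl | rfl | rfl | rfl | rfl | rfl | rfl | rfl | rfl | rfl | rfl | rfl | rfl | rfl | rfl | rfl | rfl | rfl | rfl | rfl | rfl | rfl | rfl | rfl | rfl | rfl | rfl | rfl | rfl | rfl | rfl | rfl | rfl | rfl | rfl | rfl | rfl | rfl | rfl | rfl | rfl | rfl | rfl | rfl | rfl | rfl | rfl | rfl | rfl | rfl | rfl | rfl | rfl | rfl | rfl | rfl | rfl | rfl | rfl | rfl | rfl | rfl | rfl | rfl | rfl | rfl | rfl | rfl | rfl | rfl | rfl | rfl | rfl | rfl | rfl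
  · exact h _ _ _ r1_0
  · exact h _ _ _ r1_1
  · exact h _ _ _ r1_2
  · exact h _ _ _ r1_3
  · exact h _ _ _ r1_4
  · exact h _ _ _ r1_5
  · exact h _ _ _ r1_6
  · exact h _ _ _ r1_7
  · exact h _ _ _ r1_8
  · exact h _ _ _ r1_9
  · exact h _ _ _ r1_10
  · exact h _ _ _ r1_11
  · exact h _ _ _ r1_12
  · exact h _ _ _ r1_13
  · exact h _ _ _ r1_14
  · exact h _ _ _ r1_15
  · exact h _ _ _ r1_16
  · exact h _ _ _ r1_17
  · exact h _ _ _ r1_18
  · exact h _ _ _ r1_19
  · exact h _ _ _ r1_20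
  · exact h _ _ _ r1_21
  · exact h _ _ _ r1_22
  · exact h _ _ _ r1_23
  · exact h _ _ _ r1_24
  · exact h _ _ _ r1_25
  · exact h _ _ _ r1_26
  · exact h _ _ _ r1_27
  · exact h _ _ _ r1_28
  · exact h _ _ _ r1_29
  · exact h _ _ _ r1_30
  · exact h _ _ _ r1_31
  · exact h _ _ _ r1_32
  · exact h _ _ _ r1_33
  · exact h _ _ _ r1_34
  · exact h _ _ _ r1_35
  · exact h _ _ _ r1_36
  · exact h _ _ _ r1_37
  · exact h _ _ _ r1_38
  · exact h _ _ _ r1_39
  · exact h _ _ _ r1_40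
  · exact h _ _ _ r1_41
  · exact h _ _ _ r1_42
  · exact h _ _ _ r1_43
  · exact h _ _ _ r1_44
  · exact h _ _ _ r1_45
  · exact h _ _ _ r1_46
  · exact h _ _ _ r1_47
  · exact h _ _ _ r1_48
  · exact h _ _ _ r1_49
  · exact h _ _ _ r1_50
  · exact h _ _ _ r1_51
  · exact h _ _ _ r1_52
  · exact h _ _ _ r1_53
  · exact h _ _ _ r1_54
  · exact h _ _ _ r1_55
  · exact h _ _ _ r1_56
  · exact h _ _ _ r1_57
  · exact h _ _ _ r1_58
  · exact h _ _ _ r1_59
  · exact h _ _ _ r1_60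
  · exact h _ _ _ r1_61
  · exact h _ _ _ r1_62
  · exact h _ _ _ r1_63
  · exact h _ _ _ r1_64
  · exact h _ _ _ r1_65
  · exact h _ _ _ r1_66
  · exact h _ _ _ r1_67
  · exact h _ _ _ r1_68
  · exact h _ _ _ r1_69
  · exact h _ _ _ r1_70
  · exact h _ _ _ r1_71
  · exact h _ _ _ r1_72
  · exact h _ _ _ r1_73
  · exact h _ _ _ r1_74
  · exact h _ _ _ r1_75
  · exact h _ _ _ r1_76
  · exact h _ _ _ r1_77
  · exact h _ _ _ r1_78
  · exact h _ _ _ r1_79
  · exact h _ _ _ r1_80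

/-- The leaves of the top of the tree. -/
def L2 : List St := [s2_0, s2_1, s2_2, s2_3, s2_4, s2_5, s2_6, s2_7, s2_8, s2_9, s2_10, s2_11, s2_12, s2_13, s2_14, s2_15, s2_16, s2_17, s2_18, s2_19, s2_20, s2_21, s2_22, s2_23, s2_24, s2_25, s2_26, s2_27, s2_28, s2_29, s2_30, s2_31, s2_32, s2_33, s2_34, s2_35, s2_36, s2_37, s2_38]

theorem t2 : run 4227858433 8 57 0
    [0xf0085424780123453196f00f00f00f00654215012345675198f00f00f00f00f00f00876515456780128193f00f00f00f007654216012345675198976545345679213923456711280,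
     0x765215012345675198f00f00f00f00f00874315432108765195f00f00f00f0085434543210874196f00f00f00f00754215012345675198f00f00f00,
     0xf00f00f00f0087634321087656194f00f00f00f00]
    [init 9 2] [] = some L2 := by decide +kernel

theorem u2 {c : ℕ → ℕ → ℕ} (hc : PC c) (hno : ∀ l : List ℕ, l.length = 10 → ¬ RB c l) :
    ∀ s ∈ L2, ¬ Real c s := by
  have h : ∀ (f : ℕ) (Cs : List ℕ) (s : St), run BASE 8 f 0 Cs [s] [] = some [] → ¬ Real c s :=
    fun f Cs s hr => (run_sound hc hno f 0 Cs [s] [] [] hr (by simp)).1 s (by simp)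
  intro s hs
  simp only [L2, List.mem_cons, List.not_mem_nil, or_false] at hs
  rcases hs with rfl | rfl | rfl | rfl | rfl | rfl | rfl | rfl | rfl | rfl | rfl | rfl | rfl | rfl | rfl | rfl | rfl | rfl | rfl | rfl | rfl | rfl | rfl | rfl | rfl | rfl | rfl | rfl | rfl | rfl | rfl | rfl | rfl | rfl | rfl | rfl | rfl | rfl | rfl
  · exact h _ _ _ r2_0
  · exact h _ _ _ r2_1
  · exact h _ _ _ r2_2
  · exact h _ _ _ r2_3
  · exact h _ _ _ r2_4
  · exact h _ _ _ r2_5
  · exact h _ _ _ r2_6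
  · exact h _ _ _ r2_7
  · exact h _ _ _ r2_8
  · exact h _ _ _ r2_9
  · exact h _ _ _ r2_10
  · exact h _ _ _ r2_11
  · exact h _ _ _ r2_12
  · exact h _ _ _ r2_13
  · exact h _ _ _ r2_14
  · exact h _ _ _ r2_15
  · exact h _ _ _ r2_16
  · exact h _ _ _ r2_17
  · exact h _ _ _ r2_18
  · exact h _ _ _ r2_19
  · exact h _ _ _ r2_20
  · exact h _ _ _ r2_21
  · exact h _ _ _ r2_22
  · exact h _ _ _ r2_23
  · exact h _ _ _ r2_24
  · exact h _ _ _ r2_25
  · exact h _ _ _ r2_26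
  · exact h _ _ _ r2_27
  · exact h _ _ _ r2_28
  · exact h _ _ _ r2_29
  · exact h _ _ _ r2_30
  · exact h _ _ _ r2_31
  · exact h _ _ _ r2_32
  · exact h _ _ _ r2_33
  · exact h _ _ _ r2_34
  · exact h _ _ _ r2_35
  · exact h _ _ _ r2_36
  · exact h _ _ _ r2_37
  · exact h _ _ _ r2_38

/-- The leaves of the top of the tree. -/
def L3 : List St := [s3_0, s3_1, s3_2, s3_3, s3_4, s3_5, s3_6, s3_7, s3_8, s3_9, s3_10, s3_11, s3_12, s3_13, s3_14, s3_15, s3_16, s3_17, s3_18, s3_19, s3_20, s3_21, s3_22, s3_23, s3_24, s3_25, s3_26, s3_27, s3_28, s3_29, s3_30, s3_31, s3_32, s3_33, s3_34, s3_35, s3_36, s3_37, s3_38, s3_39, s3_40, s3_41, s3_42, s3_43, s3_44, s3_45, s3_46, s3_47, s3_48, s3_49, s3_50, s3_51, s3_52, s3_53, s3_54, s3_55, s3_56, s3_57, s3_58]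

theorem t3 : run 4227858433 8 84 0
    [0xf00f00f00876325567801238194f00f00f00f0087654456789311120f00f00f00f00f00654215210834564197f00f00f007653216012345674198976525456793214934567212280,
     0xf0073214012345674198f00854215543210875196f00f00f00f00f00f0086524876543212190f00f00f00f00f0085424876543212190654215654321084197f00f00,
     0xf00f00f00f0087424432108766195f00f00f00f00f0097414764398016152f00f00763215012345674198f00f00f00f00f00f00,
     0xf00f00f00f00f00876535234567806191f00f00f00f0087654234567806191f00f00f00765315012345674198]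
    [init 9 3] [] = some L3 := by decide +kernel

theorem u3 {c : ℕ → ℕ → ℕ} (hc : PC c) (hno : ∀ l : List ℕ, l.length = 10 → ¬ RB c l) :
    ∀ s ∈ L3, ¬ Real c s := by
  have h : ∀ (f : ℕ) (Cs : List ℕ) (s : St), run BASE 8 f 0 Cs [s] [] = some [] → ¬ Real c s :=
    fun f Cs s hr => (run_sound hc hno f 0 Cs [s] [] [] hr (by simp)).1 s (by simp)
  intro s hs
  simp only [L3, List.mem_cons, List.not_mem_nil, or_false] at hs
  rcases hs with rfl | rfl | rfl | rfl | rfl | rfl | rfl | rfl | rfl | rfl | rfl | rfl | rfl | rfl | rfl | rfl | rfl | rfl | rfl | rfl | rfl | rfl | rfl | rfl | rfl | rfl | rfl | rfl | rfl | rfl | rfl | rfl | rfl | rfl | rfl | rfl | rfl | rfl | rfl | rfl | rfl | rfl | rfl | rfl | rfl | rfl | rfl | rfl | rfl | rfl | rfl | rfl | rfl | rfl | rfl | rfl | rfl | rfl | rfl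
  · exact h _ _ _ r3_0
  · exact h _ _ _ r3_1
  · exact h _ _ _ r3_2
  · exact h _ _ _ r3_3
  · exact h _ _ _ r3_4
  · exact h _ _ _ r3_5
  · exact h _ _ _ r3_6
  · exact h _ _ _ r3_7
  · exact h _ _ _ r3_8
  · exact h _ _ _ r3_9
  · exact h _ _ _ r3_10
  · exact h _ _ _ r3_11
  · exact h _ _ _ r3_12
  · exact h _ _ _ r3_13
  · exact h _ _ _ r3_14
  · exact h _ _ _ r3_15
  · exact h _ _ _ r3_16
  · exact h _ _ _ r3_17
  · exact h _ _ _ r3_18
  · exact h _ _ _ r3_19
  · exact h _ _ _ r3_20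
  · exact h _ _ _ r3_21
  · exact h _ _ _ r3_22
  · exact h _ _ _ r3_23
  · exact h _ _ _ r3_24
  · exact h _ _ _ r3_25
  · exact h _ _ _ r3_26
  · exact h _ _ _ r3_27
  · exact h _ _ _ r3_28
  · exact h _ _ _ r3_29
  · exact h _ _ _ r3_30
  · exact h _ _ _ r3_31
  · exact h _ _ _ r3_32
  · exact h _ _ _ r3_33
  · exact h _ _ _ r3_34
  · exact h _ _ _ r3_35
  · exact h _ _ _ r3_36
  · exact h _ _ _ r3_37
  · exact h _ _ _ r3_38
  · exact h _ _ _ r3_39
  · exact h _ _ _ r3_40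
  · exact h _ _ _ r3_41
  · exact h _ _ _ r3_42
  · exact h _ _ _ r3_43
  · exact h _ _ _ r3_44
  · exact h _ _ _ r3_45
  · exact h _ _ _ r3_46
  · exact h _ _ _ r3_47
  · exact h _ _ _ r3_48
  · exact h _ _ _ r3_49
  · exact h _ _ _ r3_50
  · exact h _ _ _ r3_51
  · exact h _ _ _ r3_52
  · exact h _ _ _ r3_53
  · exact h _ _ _ r3_54
  · exact h _ _ _ r3_55
  · exact h _ _ _ r3_56
  · exact h _ _ _ r3_57
  · exact h _ _ _ r3_58

/-- The leaves of the top of the tree. -/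
def L4 : List St := [s4_0, s4_1, s4_2, s4_3, s4_4, s4_5, s4_6, s4_7, s4_8, s4_9, s4_10, s4_11, s4_12, s4_13, s4_14, s4_15, s4_16, s4_17, s4_18, s4_19, s4_20, s4_21, s4_22, s4_23, s4_24, s4_25, s4_26, s4_27, s4_28, s4_29, s4_30, s4_31, s4_32, s4_33, s4_34, s4_35, s4_36, s4_37, s4_38, s4_39, s4_40, s4_41, s4_42, s4_43, s4_44, s4_45, s4_46, s4_47, s4_48, s4_49, s4_50, s4_51, s4_52, s4_53, s4_54, s4_55, s4_56, s4_57, s4_58, s4_59]

theorem t4 : run 4227858433 8 85 0
    [0xf00f00f00f00876325876543213190f00f00f00f00f00f00865325876543213190f00f00f00f00f007642150123456737654321032988765216876540123193976325567943215945673213280,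
     0x53214543210876196875325876543213190f00f00f00f00f00f00f00f0085324876543213190653215654321085197f00f00f00f00f00f00764315012345673198f00,
     0xf00f00f00f0087614345678016192f00f00764215012345673198f00f00f00f00f00f0083214543210876196f00f00f00f00f00,
     0xf00f00f00f0076414012345673198f00f00f00f00876435234567805191f00f00f00f0087644345678016192f00]
    [init 9 4] [] = some L4 := by decide +kernel

theorem u4 {c : ℕ → ℕ → ℕ} (hc : PC c) (hno : ∀ l : List ℕ, l.length = 10 → ¬ RB c l) :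
    ∀ s ∈ L4, ¬ Real c s := by
  have h : ∀ (f : ℕ) (Cs : List ℕ) (s : St), run BASE 8 f 0 Cs [s] [] = some [] → ¬ Real c s :=
    fun f Cs s hr => (run_sound hc hno f 0 Cs [s] [] [] hr (by simp)).1 s (by simp)
  intro s hs
  simp only [L4, List.mem_cons, List.not_mem_nil, or_false] at hs
  rcases hs with rfl | rfl | rfl | rfl | rfl | rfl | rfl | rfl | rfl | rfl | rfl | rfl | rfl | rfl | rfl | rfl | rfl | rfl | rfl | rfl | rfl | rfl | rfl | rfl | rfl | rfl | rfl | rfl | rfl | rfl | rfl | rfl | rfl | rfl | rfl | rfl | rfl | rfl | rfl | rfl | rfl | rfl | rfl | rfl | rfl | rfl | rfl | rfl | rfl | rfl | rfl | rfl | rfl | rfl | rfl | rfl | rfl | rfl | rfl | rfl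
  · exact h _ _ _ r4_0
  · exact h _ _ _ r4_1
  · exact h _ _ _ r4_2
  · exact h _ _ _ r4_3
  · exact h _ _ _ r4_4
  · exact h _ _ _ r4_5
  · exact h _ _ _ r4_6
  · exact h _ _ _ r4_7
  · exact h _ _ _ r4_8
  · exact h _ _ _ r4_9
  · exact h _ _ _ r4_10
  · exact h _ _ _ r4_11
  · exact h _ _ _ r4_12
  · exact h _ _ _ r4_13
  · exact h _ _ _ r4_14
  · exact h _ _ _ r4_15
  · exact h _ _ _ r4_16
  · exact h _ _ _ r4_17
  · exact h _ _ _ r4_18
  · exact h _ _ _ r4_19
  · exact h _ _ _ r4_20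
  · exact h _ _ _ r4_21
  · exact h _ _ _ r4_22
  · exact h _ _ _ r4_23
  · exact h _ _ _ r4_24
  · exact h _ _ _ r4_25
  · exact h _ _ _ r4_26
  · exact h _ _ _ r4_27
  · exact h _ _ _ r4_28
  · exact h _ _ _ r4_29
  · exact h _ _ _ r4_30
  · exact h _ _ _ r4_31
  · exact h _ _ _ r4_32
  · exact h _ _ _ r4_33
  · exact h _ _ _ r4_34
  · exact h _ _ _ r4_35
  · exact h _ _ _ r4_36
  · exact h _ _ _ r4_37
  · exact h _ _ _ r4_38
  · exact h _ _ _ r4_39
  · exact h _ _ _ r4_40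
  · exact h _ _ _ r4_41
  · exact h _ _ _ r4_42
  · exact h _ _ _ r4_43
  · exact h _ _ _ r4_44
  · exact h _ _ _ r4_45
  · exact h _ _ _ r4_46
  · exact h _ _ _ r4_47
  · exact h _ _ _ r4_48
  · exact h _ _ _ r4_49
  · exact h _ _ _ r4_50
  · exact h _ _ _ r4_51
  · exact h _ _ _ r4_52
  · exact h _ _ _ r4_53
  · exact h _ _ _ r4_54
  · exact h _ _ _ r4_55
  · exact h _ _ _ r4_56
  · exact h _ _ _ r4_57
  · exact h _ _ _ r4_58
  · exact h _ _ _ r4_59

end Pool.Agent.W421.HP
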